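import Mathlib

/-! Binary digits of apart sums. -/

namespace HTJump

/-- `n` has no binary digit `1` below position `x`. -/
def low (n x : ℕ) : Prop := ∀ t < x, n.testBit t = false

/-- `h` lives below position `K`, and `g > 0` lives at positions `≥ K`. -/
def Apart (h g K : ℕ) : Prop := h < 2 ^ K ∧ 2 ^ K ∣ g ∧ 0 < g

lemma Apart.le {h g K : ℕ} (H : Apart h g K) : 2 ^ K ≤ g := Nat.le_of_dvd H.2.2 H.2.1

lemma Apart.lt {h g K : ℕ} (H : Apart h g K) : h < g := lt_of_lt_of_le H.1 H.le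

lemma Apart.hi {h g K : ℕ} (H : Apart h g K) {s : ℕ} (hs : K ≤ s) : h.testBit s = false :=
  Nat.testBit_lt_two_pow (lt_of_lt_of_le H.1 (Nat.pow_le_pow_right (by norm_num) hs))

lemma low_of_dvd {g K : ℕ} (H : 2 ^ K ∣ g) : low g K := by
  intro t ht
  obtain ⟨a, rfl⟩ := H
  have := Nat.testBit_two_pow_mul_add a (b := 0) (i := K) (by positivity) t
  simpa [ht] using this

lemma Apart.lo {h g K : ℕ} (H : Apart h g K) {s : ℕ} (hs : s < K) : g.testBit s = false :=
  low_of_dvd H.2.1 s hs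

lemma Apart.bit_lo {h g K : ℕ} (H : Apart h g K) {s : ℕ} (hs : s < K) :
    (h + g).testBit s = h.testBit s := by
  obtain ⟨h1, ⟨a, rfl⟩, -⟩ := H
  have := Nat.testBit_two_pow_mul_add a h1 s
  rw [add_comm]; simpa [hs] using this

lemma Apart.bit_hi {h g K : ℕ} (H : Apart h g K) {s : ℕ} (hs : K ≤ s) :
    (h + g).testBit s = g.testBit s := by
  obtain ⟨h1, ⟨a, rfl⟩, -⟩ := H
  have h2 := Nat.testBit_two_pow_mul_add a h1 s
  have h3 := Nat.testBit_two_pow_mul_add a (b := 0) (i := K) (by positivity) s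
  have hs' : ¬ s < K := by omega
  rw [add_comm]; simp only [hs', if_false, add_zero] at h2 h3; rw [h2, h3]

lemma Apart.pow_le_iff {h g K : ℕ} (H : Apart h g K) {t : ℕ} (ht : K ≤ t) :
    2 ^ t ≤ h + g ↔ 2 ^ t ≤ g := by
  constructor
  · intro hle
    obtain ⟨h1, ⟨a, rfl⟩, -⟩ := H
    obtain ⟨d, rfl⟩ := Nat.exists_eq_add_of_le ht
    rw [pow_add] at hle ⊢
    by_contra hc
    push Not at hc
    have h5 : a < 2 ^ d := lt_of_mul_lt_mul_left hc (Nat.zero_le _)
    have h6 : 2 ^ K * (a + 1) ≤ 2 ^ K * 2 ^ d := Nat.mul_le_mul_left _ h5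
    nlinarith
  · intro hle; omega

lemma Apart.pow_le_of_lt {h g K : ℕ} (H : Apart h g K) {t : ℕ} (ht : t ≤ K) :
    2 ^ t ≤ h + g := by
  have := H.le
  have : 2 ^ t ≤ 2 ^ K := Nat.pow_le_pow_right (by norm_num) ht
  omega

lemma Apart.lt_of_bit {h g K : ℕ} (H : Apart h g K) {s : ℕ} (hs : h.testBit s = true) : s < K := by
  by_contra hc
  rw [H.hi (by omega)] at hs
  exact absurd hs (by simp)

lemma Apart.le_of_bit {h g K : ℕ} (H : Apart h g K) {s : ℕ} (hs : g.testBit s = true) : K ≤ s := by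
  by_contra hc
  rw [H.lo (by omega)] at hs
  exact absurd hs (by simp)

lemma pow_le_of_bit {n s : ℕ} (hs : n.testBit s = true) : 2 ^ s ≤ n :=
  Nat.ge_two_pow_of_testBit hs

lemma lt_of_bit {n s : ℕ} (hs : n.testBit s = true) : s < n :=
  lt_of_lt_of_le Nat.lt_two_pow_self (pow_le_of_bit hs)

/-- the top digit -/
lemma exists_top {n : ℕ} (hn : 0 < n) : ∃ a, n.testBit a = true ∧ n < 2 ^ (a + 1) := by
  refine ⟨Nat.log2 n, Nat.testBit_log2 (by omega), Nat.lt_log2_self⟩

lemma le_top {n a s : ℕ} (ha : n < 2 ^ (a + 1)) (hs : n.testBit s = true) : s ≤ a := by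
  have h1 := pow_le_of_bit hs
  have h2 : 2 ^ s < 2 ^ (a + 1) := lt_of_le_of_lt h1 ha
  have := (Nat.pow_lt_pow_iff_right (by norm_num : 1 < 2)).1 h2
  omega

lemma low_le_of_bit {n x s : ℕ} (hx : low n x) (hs : n.testBit s = true) : x ≤ s := by
  by_contra hc
  rw [hx s (by omega)] at hs
  exact absurd hs (by simp)

lemma low_mono {n x y : ℕ} (hx : low n x) (hy : y ≤ x) : low n y :=
  fun t ht => hx t (by omega)

lemma Apart.low_iff {h g K : ℕ} (H : Apart h g K) (hh : 0 < h) (x : ℕ) :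
    low (h + g) x ↔ low h x := by
  obtain ⟨a, ha, -⟩ := exists_top hh
  have haK := H.lt_of_bit ha
  constructor
  · intro hx
    have hxa : x ≤ a := low_le_of_bit hx (by rw [H.bit_lo haK]; exact ha)
    intro t ht
    rw [← H.bit_lo (by omega)]; exact hx t ht
  · intro hx
    have hxa : x ≤ a := low_le_of_bit hx ha
    intro t ht
    rw [H.bit_lo (by omega)]; exact hx t ht

lemma Apart.add_left {h h' g K K' : ℕ} (H : Apart h h' K) (H' : Apart h' g K') :
    Apart (h + h') g K' := by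
  refine ⟨?_, H'.2.1, H'.2.2⟩
  have hK : K ≤ K' := by
    have h1 := H.le
    have h2 : 2 ^ K < 2 ^ K' := lt_of_le_of_lt h1 H'.1
    exact le_of_lt ((Nat.pow_lt_pow_iff_right (by norm_num : 1 < 2)).1 h2)
  by_contra hc
  push Not at hc
  have := (H.pow_le_iff hK).1 hc
  have := H'.1
  omega

lemma Apart.add_right {h g g' K K' : ℕ} (H : Apart h g K) (H' : Apart g g' K') :
    Apart h (g + g') K := by
  have hK : K ≤ K' := by
    have h1 := H.le
    have h2 : 2 ^ K < 2 ^ K' := lt_of_le_of_lt h1 H'.1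
    exact le_of_lt ((Nat.pow_lt_pow_iff_right (by norm_num : 1 < 2)).1 h2)
  refine ⟨H.1, Dvd.dvd.add H.2.1 (dvd_trans (pow_dvd_pow 2 hK) H'.2.1), ?_⟩
  have := H.2.2; omega

lemma Apart.of_add_left {h h' g K' : ℕ} (H' : Apart (h + h') g K') : Apart h g K' :=
  ⟨by have := H'.1; omega, H'.2.1, H'.2.2⟩

lemma Apart.of_add_right {h h' g K' : ℕ} (H' : Apart (h + h') g K') : Apart h' g K' :=
  ⟨by have := H'.1; omega, H'.2.1, H'.2.2⟩

lemma finite_bits (n : ℕ) : {s | n.testBit s = true}.Finite :=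
  (Set.finite_lt_nat n).subset fun _ hs => lt_of_bit hs

/-- additivity of counts over apart supports -/
lemma ncard_split {h g K : ℕ} (H : Apart h g K) {P Q R : ℕ → Prop}
    (hQ : ∀ s, Q s → h.testBit s = true) (hR : ∀ s, R s → g.testBit s = true)
    (hP : ∀ s, P s ↔ Q s ∨ R s) :
    {s | P s}.ncard = {s | Q s}.ncard + {s | R s}.ncard := by
  have e : {s | P s} = {s | Q s} ∪ {s | R s} := by ext s; simp [hP]
  rw [e]
  refine Set.ncard_union_eq ?_ ((finite_bits h).subset hQ) ((finite_bits g).subset hR)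
  rw [Set.disjoint_left]
  intro s h1 h2
  have := H.lt_of_bit (hQ s h1)
  have := H.le_of_bit (hR s h2)
  omega

/-- a uniform bound over a finite set of parameters -/
lemma exists_bound {S : Set ℕ} (hS : S.Finite) {P : ℕ → ℕ → Prop}
    (hmono : ∀ x K K', K ≤ K' → P x K → P x K') (h : ∀ x ∈ S, ∃ K, P x K) :
    ∃ K, ∀ x ∈ S, P x K := by
  classical
  choose! f hf using h
  obtain ⟨K, hK⟩ := (hS.image f).bddAbove
  exact ⟨K, fun x hx => hmono x _ _ (hK ⟨x, hx, rfl⟩) (hf x hx)⟩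

lemma finite_low {h : ℕ} (hh : 0 < h) : {x | low h x}.Finite := by
  obtain ⟨a, ha, -⟩ := exists_top hh
  exact (Set.finite_le_nat a).subset fun x hx => low_le_of_bit hx ha

end HTJump
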