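import Pool.Agent.HTJump.Gaps

/-! The parity of the lowest digit forces arbitrarily many trailing zeros. -/

namespace HTJump

/-- the lowest digit of `n` sits at an odd position -/
def P3 (n : ℕ) : Prop := ∃ j, j % 2 = 1 ∧ n.testBit j = true ∧ low n j

lemma dvd_of_low {a K : ℕ} (h : low a K) : 2 ^ K ∣ a := by
  apply Nat.dvd_of_mod_eq_zero
  apply Nat.eq_of_testBit_eq
  intro t
  rw [Nat.testBit_mod_two_pow]
  by_cases ht : t < K
  · simp [h t ht]
  · simp [ht]

lemma P3_iff {n j : ℕ} (h1 : n.testBit j = true) (h2 : low n j) : P3 n ↔ j % 2 = 1 := by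
  constructor
  · rintro ⟨j', h3, h4, h5⟩
    have := low_le_of_bit h2 h4
    have := low_le_of_bit h5 h1
    have : j = j' := by omega
    rw [this]; exact h3
  · intro h; exact ⟨j, h, h1, h2⟩

open Classical in
theorem far_of_mono {X : Set ℕ} (hX : X.Infinite)
    (hM : Mono4 (fun n => if P3 n then 1 else 0) X) : Far X := by
  obtain ⟨i, m1, m2, -, -⟩ := hM
  intro K
  by_contra hc
  push Not at hc
  have hX' : (X \ {0}).Infinite := hX.sdiff (Set.finite_singleton 0)
  have hmap : Set.MapsTo (fun n => n % 2 ^ (K + 1)) (X \ {0}) {r | r < 2 ^ (K + 1)} :=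
    fun n _ => Nat.mod_lt _ (by positivity)
  obtain ⟨a, ha, b, hb, hab, he⟩ := hX'.exists_lt_map_eq_of_mapsTo hmap (Set.finite_lt_nat _)
  have ha0 : 0 < a := Nat.pos_of_ne_zero ha.2
  have hnl : ¬ low a K := fun h => hc a ha.1 ha0 (dvd_of_low h)
  have hex : ∃ j, a.testBit j = true := by
    obtain ⟨j, hj, -⟩ := exists_top ha0
    exact ⟨j, hj⟩
  set j := Nat.find hex with hj
  have hj1 : a.testBit j = true := Nat.find_spec hex
  have hj2 : low a j := fun t ht => by simpa using Nat.find_min hex ht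
  have hjK : j < K := by
    by_contra h
    exact hnl (low_mono hj2 (by omega))
  have hmod : (a + b) % 2 ^ (K + 1) = (2 * a) % 2 ^ (K + 1) := by
    rw [two_mul, Nat.add_mod, ← he, ← Nat.add_mod]
  have hbit : ∀ t < K + 1, (a + b).testBit t = (2 * a).testBit t := by
    intro t ht
    have h1 := Nat.testBit_mod_two_pow (a + b) (K + 1) t
    have h2 := Nat.testBit_mod_two_pow (2 * a) (K + 1) t
    rw [hmod, h2] at h1
    simpa [ht] using h1.symm
  have h2a : ∀ t, (2 * a).testBit (t + 1) = a.testBit t := by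
    intro t
    rw [Nat.testBit_succ]; simp
  have hk1 : (a + b).testBit (j + 1) = true := by rw [hbit _ (by omega), h2a, hj1]
  have hk2 : low (a + b) (j + 1) := by
    intro t ht
    rw [hbit _ (by omega)]
    cases t with
    | zero => simp
    | succ t => rw [h2a]; exact hj2 t (by omega)
  have e1 := m1 a ha.1
  have e2 := m2 a ha.1 b hb.1 hab
  simp only [P3_iff hj1 hj2, P3_iff hk1 hk2] at e1 e2
  split_ifs at e1 e2 <;> omega

end HTJump
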