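import Pool.Agent.HTJump.Bits

/-! Short gaps (the Blass-Hirst-Simpson count) for a family of event sets. -/

namespace HTJump

variable (E : ℕ → ℕ → Prop)

/-- `a` is a digit of `n` and the gap after it is seen to be short by the top of `n`. -/
def P1 (n a : ℕ) : Prop :=
  n.testBit a = true ∧ ∃ x ≤ a, ∃ t, 2 ^ t ≤ n ∧ a ≤ t ∧ E x t ∧
    (∀ t' < t, a ≤ t' → ¬ E x t') ∧ ∃ b ≤ t, a < b ∧ n.testBit b = true

/-- `a` is a digit of `h` and the gap after it is short. -/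
def SP1 (h a : ℕ) : Prop :=
  h.testBit a = true ∧ ∃ x ≤ a, ∃ t, a ≤ t ∧ E x t ∧
    (∀ t' < t, a ≤ t' → ¬ E x t') ∧ ∃ b ≤ t, a < b ∧ h.testBit b = true

/-- the gap between `h` and `g` is long -/
def Long (h g : ℕ) : Prop :=
  ∀ a, h.testBit a = true → h < 2 ^ (a + 1) → ∀ x ≤ a, ∀ t, a ≤ t → E x t →
    ∃ t', a ≤ t' ∧ E x t' ∧ low g (t' + 1)

lemma exists_first {E : ℕ → ℕ → Prop} {x a t : ℕ} (ht : a ≤ t) (he : E x t) :
    ∃ t0 ≤ t, a ≤ t0 ∧ E x t0 ∧ ∀ t' < t0, a ≤ t' → ¬ E x t' := by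
  classical
  have hex : ∃ t, a ≤ t ∧ E x t := ⟨t, ht, he⟩
  refine ⟨Nat.find hex, Nat.find_min' hex ⟨ht, he⟩, (Nat.find_spec hex).1, (Nat.find_spec hex).2,
    fun t' h1 h2 h3 => Nat.find_min hex h1 ⟨h2, h3⟩⟩

/-- first events after digits of `h` are bounded -/
lemma first_bound (h : ℕ) : ∃ K, ∀ a < h, ∀ x ≤ a, ∀ t, a ≤ t → E x t →
    (∀ t' < t, a ≤ t' → ¬ E x t') → t < K := by
  have h1 : ∀ a, ∃ K, ∀ x ≤ a, ∀ t, a ≤ t → E x t → (∀ t' < t, a ≤ t' → ¬ E x t') → t < K := by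
    intro a
    have := exists_bound (S := {x | x ≤ a}) (Set.finite_le_nat a)
      (P := fun x K => ∀ t, a ≤ t → E x t → (∀ t' < t, a ≤ t' → ¬ E x t') → t < K)
      (fun x K K' hK hP t h1 h2 h3 => lt_of_lt_of_le (hP t h1 h2 h3) hK) (by
        intro x _
        by_cases hx : ∃ t, a ≤ t ∧ E x t
        · obtain ⟨t, h1, h2⟩ := hx
          refine ⟨t + 1, fun t' h3 h4 h5 => ?_⟩
          by_contra hc
          exact h5 t (by omega) h1 h2
        · exact ⟨0, fun t h1 h2 _ => absurd ⟨t, h1, h2⟩ hx⟩)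
    exact this
  have := exists_bound (S := {a | a < h}) (Set.finite_lt_nat h)
    (P := fun a K => ∀ x ≤ a, ∀ t, a ≤ t → E x t → (∀ t' < t, a ≤ t' → ¬ E x t') → t < K)
    (fun a K K' hK hP x hx t h1 h2 h3 => lt_of_lt_of_le (hP x hx t h1 h2 h3) hK)
    (fun a _ => h1 a)
  exact this

lemma P1_split (h : ℕ) : ∃ K0, ∀ g K, K0 ≤ K → Apart h g K →
    {a | P1 E (h + g) a}.ncard = {a | SP1 E h a}.ncard + {a | P1 E g a}.ncard := by
  obtain ⟨K0, hK0⟩ := first_bound E h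
  refine ⟨K0, fun g K hK H => ncard_split H (fun s hs => hs.1) (fun s hs => hs.1) fun a => ?_⟩
  by_cases ha : a < K
  · constructor
    · rintro ⟨h1, x, hx, t, -, h3, h4, h5, b, h6, h7, h8⟩
      rw [H.bit_lo ha] at h1
      have ht := hK0 a (lt_of_bit h1) x hx t h3 h4 h5
      rw [H.bit_lo (by omega)] at h8
      exact Or.inl ⟨h1, x, hx, t, h3, h4, h5, b, h6, h7, h8⟩
    · rintro (⟨h1, x, hx, t, h3, h4, h5, b, h6, h7, h8⟩ | hg)
      · have ht := hK0 a (lt_of_bit h1) x hx t h3 h4 h5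
        refine ⟨by rw [H.bit_lo ha]; exact h1, x, hx, t, H.pow_le_of_lt (by omega), h3, h4, h5,
          b, h6, h7, by rw [H.bit_lo (by omega)]; exact h8⟩
      · have := H.le_of_bit hg.1; omega
  · have ha' : K ≤ a := by omega
    constructor
    · rintro ⟨h1, x, hx, t, h2, h3, h4, h5, b, h6, h7, h8⟩
      rw [H.bit_hi ha'] at h1
      rw [H.bit_hi (by omega)] at h8
      exact Or.inr ⟨h1, x, hx, t, (H.pow_le_iff (by omega)).1 h2, h3, h4, h5, b, h6, h7, h8⟩
    · rintro (hh | ⟨h1, x, hx, t, h2, h3, h4, h5, b, h6, h7, h8⟩)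
      · have := H.lt_of_bit hh.1; omega
      · exact ⟨by rw [H.bit_hi ha']; exact h1, x, hx, t, (H.pow_le_iff (by omega)).2 h2, h3, h4,
          h5, b, h6, h7, by rw [H.bit_hi (by omega)]; exact h8⟩

/-- if the gap is not long the count of short gaps jumps by one -/
lemma SP1_split {h g K : ℕ} (H : Apart h g K) (hL : ¬ Long E h g) :
    {a | SP1 E (h + g) a}.ncard = {a | SP1 E h a}.ncard + 1 + {a | SP1 E g a}.ncard := by
  unfold Long at hL
  push Not at hL
  obtain ⟨α, hα1, hα2, x0, hx0, t0, ht0, he0, hno⟩ := hL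
  have hαK := H.lt_of_bit hα1
  have hnot : ¬ SP1 E h α := by
    rintro ⟨-, x, -, t, -, -, -, b, -, h7, h8⟩
    have := le_top hα2 h8; omega
  have e : {a | SP1 E h a}.ncard + 1 = {a | SP1 E h a ∨ a = α}.ncard := by
    have : {a | SP1 E h a ∨ a = α} = insert α {a | SP1 E h a} := by
      ext a; simp [or_comm]
    have hfin : {a | SP1 E h a}.Finite := (finite_bits h).subset fun s hs => hs.1
    have hn : α ∉ {a | SP1 E h a} := hnot
    rw [this, Set.ncard_insert_of_notMem hn hfin]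
  rw [e]
  refine ncard_split H (fun s hs => hs.elim (fun h1 => h1.1) fun h1 => h1 ▸ hα1)
    (fun s hs => hs.1) fun a => ?_
  by_cases ha : a < K
  · constructor
    · rintro ⟨h1, x, hx, t, h3, h4, h5, b, h6, h7, h8⟩
      rw [H.bit_lo ha] at h1
      by_cases haα : a = α
      · exact Or.inl (Or.inr haα)
      · have := le_top hα2 h1
        by_cases hb : b < K
        · rw [H.bit_lo hb] at h8
          exact Or.inl (Or.inl ⟨h1, x, hx, t, h3, h4, h5, b, h6, h7, h8⟩)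
        · exact Or.inl (Or.inl ⟨h1, x, hx, t, h3, h4, h5, α, by omega, by omega, hα1⟩)
    · rintro ((⟨h1, x, hx, t, h3, h4, h5, b, h6, h7, h8⟩ | rfl) | hg)
      · exact ⟨by rw [H.bit_lo ha]; exact h1, x, hx, t, h3, h4, h5, b, h6, h7,
          by rw [H.bit_lo (H.lt_of_bit h8)]; exact h8⟩
      · obtain ⟨t1, -, h2, h3, h4⟩ := exists_first ht0 he0
        have h5 := hno t1 h2 h3
        unfold low at h5
        push Not at h5
        obtain ⟨b, hb1, hb2⟩ := h5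
        have hb3 : g.testBit b = true := by simpa using hb2
        have := H.le_of_bit hb3
        exact ⟨by rw [H.bit_lo ha]; exact hα1, x0, hx0, t1, h2, h3, h4, b, by omega, by omega,
          by rw [H.bit_hi this]; exact hb3⟩
      · have := H.le_of_bit hg.1; omega
  · have ha' : K ≤ a := by omega
    constructor
    · rintro ⟨h1, x, hx, t, h3, h4, h5, b, h6, h7, h8⟩
      rw [H.bit_hi ha'] at h1
      rw [H.bit_hi (by omega)] at h8
      exact Or.inr ⟨h1, x, hx, t, h3, h4, h5, b, h6, h7, h8⟩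
    · rintro ((hh | rfl) | ⟨h1, x, hx, t, h3, h4, h5, b, h6, h7, h8⟩)
      · have := H.lt_of_bit hh.1; omega
      · omega
      · exact ⟨by rw [H.bit_hi ha']; exact h1, x, hx, t, h3, h4,
          h5, b, h6, h7, by rw [H.bit_hi (by omega)]; exact h8⟩

/-- `X` has elements with arbitrarily many trailing zeros. -/
def Far (X : Set ℕ) : Prop := ∀ K, ∃ g ∈ X, 0 < g ∧ 2 ^ K ∣ g

lemma Far.apart {X : Set ℕ} (hX : Far X) (h K0 : ℕ) : ∃ g ∈ X, ∃ K, K0 ≤ K ∧ Apart h g K := by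
  obtain ⟨g, hg, h1, h2⟩ := hX (max h K0)
  refine ⟨g, hg, max h K0, le_max_right _ _, ?_, h2, h1⟩
  exact lt_of_lt_of_le Nat.lt_two_pow_self (Nat.pow_le_pow_right (by norm_num) (le_max_left _ _))

/-- `f` is constant on sums of at most four increasing elements of `X`. -/
def Mono4 (f : ℕ → ℕ) (X : Set ℕ) : Prop :=
  ∃ i, (∀ a ∈ X, f a = i) ∧ (∀ a ∈ X, ∀ b ∈ X, a < b → f (a + b) = i) ∧
    (∀ a ∈ X, ∀ b ∈ X, ∀ c ∈ X, a < b → b < c → f (a + b + c) = i) ∧
    (∀ a ∈ X, ∀ b ∈ X, ∀ c ∈ X, ∀ d ∈ X, a < b → b < c → c < d → f (a + b + c + d) = i)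

theorem long_of_mono {X : Set ℕ} (hF : Far X)
    (hM : Mono4 (fun n => {a | P1 E n a}.ncard % 2) X) {h g K : ℕ} (hh : h ∈ X) (hg : g ∈ X)
    (H : Apart h g K) : Long E h g := by
  obtain ⟨i, m1, m2, m3, -⟩ := hM
  have even1 : ∀ a ∈ X, {s | SP1 E a s}.ncard % 2 = 0 := by
    intro a ha
    obtain ⟨K0, hK0⟩ := P1_split E a
    obtain ⟨b, hb, K', hK', H'⟩ := hF.apart a K0
    have e1 := hK0 b K' hK' H'
    have e2 := m1 b hb
    have e3 := m2 a ha b hb H'.lt
    simp only at e2 e3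
    omega
  by_contra hL
  have e0 := SP1_split E H hL
  obtain ⟨K0, hK0⟩ := P1_split E (h + g)
  obtain ⟨b, hb, K', hK', H'⟩ := hF.apart (h + g) K0
  have e1 := hK0 b K' hK' H'
  have e2 := m1 b hb
  have e3 := m3 h hh g hg b hb H.lt H'.of_add_right.lt
  have e4 := even1 h hh
  have e5 := even1 g hg
  simp only at e2 e3
  omega

end HTJump
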