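import Pool.Agent.HTJump.Gaps

/-! The count of digits that carry a last event. -/

namespace HTJump

variable (E : ℕ → ℕ → Prop)

/-- `s` is the largest digit of `n` below the last event of some `x` with `L x` seen by `n`. -/
def P2 (L : ℕ → Prop) (n s : ℕ) : Prop :=
  n.testBit s = true ∧ ∃ x, L x ∧ ∃ t, 2 ^ t ≤ n ∧ s ≤ t ∧ E x t ∧
    (∀ s' ≤ t, s < s' → n.testBit s' = false) ∧ ∀ t', t < t' → 2 ^ t' ≤ n → ¬ E x t'

/-- the same with the true last event -/
def RP (h s : ℕ) : Prop :=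
  h.testBit s = true ∧ ∃ x, low h x ∧ ∃ t, s ≤ t ∧ E x t ∧
    (∀ s' ≤ t, s < s' → h.testBit s' = false) ∧ ∀ t', t < t' → ¬ E x t'

/-- the decidable version for digits other than the top one -/
def RD (n g s : ℕ) : Prop :=
  n.testBit s = true ∧ (∃ s', s < s' ∧ n.testBit s' = true) ∧ ∃ x, low n x ∧ ∃ t, s ≤ t ∧ E x t ∧
    (∀ s' ≤ t, s < s' → n.testBit s' = false) ∧ ∀ t', t < t' → low g (t' + 1) → ¬ E x t'

/-- some small `x` has its last event at or above the top digit of `n` -/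
def rho (n : ℕ) : Prop :=
  ∃ x, low n x ∧ ∃ t, n < 2 ^ (t + 1) ∧ E x t ∧ ∀ t', t < t' → ¬ E x t'

/-- `x` has finitely many events -/
def Fin' (x : ℕ) : Prop := ∃ B, ∀ t, E x t → t < B

lemma fin_bound {h : ℕ} (hh : 0 < h) :
    ∃ K, ∀ x, low h x → Fin' E x → ∀ t, E x t → t < K := by
  have := exists_bound (S := {x | low h x}) (finite_low hh)
    (P := fun x K => Fin' E x → ∀ t, E x t → t < K)
    (fun x K K' hK hP hf t ht => lt_of_lt_of_le (hP hf t ht) hK) (by
      intro x _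
      by_cases hx : Fin' E x
      · obtain ⟨B, hB⟩ := hx
        exact ⟨B, fun _ => hB⟩
      · exact ⟨0, fun hf => absurd hf hx⟩)
  exact this

lemma inf_bound {h : ℕ} (hh : 0 < h) (g : ℕ) :
    ∃ K, ∀ x, low h x → ¬ Fin' E x → ∃ t ≤ K, g ≤ t ∧ E x t := by
  have := exists_bound (S := {x | low h x}) (finite_low hh)
    (P := fun x K => ¬ Fin' E x → ∃ t ≤ K, g ≤ t ∧ E x t)
    (fun x K K' hK hP hf => by
      obtain ⟨t, h1, h2⟩ := hP hf
      exact ⟨t, le_trans h1 hK, h2⟩) (by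
      intro x _
      by_cases hx : Fin' E x
      · exact ⟨0, fun hf => absurd hx hf⟩
      · unfold Fin' at hx
        push Not at hx
        obtain ⟨t, h1, h2⟩ := hx g
        exact ⟨t, fun _ => ⟨t, le_rfl, h2, h1⟩⟩)
  exact this

lemma P2_split {h : ℕ} (hh : 0 < h) : ∃ K0, ∀ g K, K0 ≤ K → Apart h g K →
    ∃ K1, ∀ g' K', K1 ≤ K' → Apart g g' K' →
      {s | P2 E (low (h + (g + g'))) (h + (g + g')) s}.ncard =
        {s | RP E h s}.ncard + {s | P2 E (low h) (g + g') s}.ncard := by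
  obtain ⟨K0, hK0⟩ := fin_bound E hh
  refine ⟨K0, fun g K hK H0 => ?_⟩
  obtain ⟨K1, hK1⟩ := inf_bound E hh g
  refine ⟨K1, fun g' K' hK' H1 => ?_⟩
  have H := H0.add_right H1
  have hlow : low (h + (g + g')) = low h := funext fun x => propext (H.low_iff hh x)
  rw [hlow]
  refine ncard_split H (fun s hs => hs.1) (fun s hs => hs.1) fun s => ?_
  by_cases hs : s < K
  · constructor
    · rintro ⟨h1, x, hx, t, h2, h3, h4, h5, h6⟩
      rw [H.bit_lo hs] at h1
      by_cases hf : Fin' E x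
      · have hb := hK0 x hx hf
        refine Or.inl ⟨h1, x, hx, t, h3, h4, fun s' h7 h8 => ?_, fun t' h7 h8 => ?_⟩
        · have := hb t h4
          rw [← H.bit_lo (by omega)]; exact h5 s' h7 h8
        · have := hb t' h8
          exact h6 t' h7 (H.pow_le_of_lt (by omega)) h8
      · exfalso
        obtain ⟨t1, h7, h8, h9⟩ := hK1 x hx hf
        obtain ⟨b, hb, -⟩ := exists_top H0.2.2
        have hb1 := lt_of_bit hb
        have hb2 := H0.le_of_bit hb
        have hb3 := H1.lt_of_bit hb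
        have ht1 : 2 ^ t1 ≤ h + (g + g') := by
          have := H1.pow_le_of_lt (t := t1) (by omega)
          omega
        have htt : t1 ≤ t := by
          by_contra hc
          exact h6 t1 (by omega) ht1 h9
        have := h5 b (by omega) (by omega)
        rw [H.bit_hi hb2, H1.bit_lo hb3, hb] at this
        exact absurd this (by simp)
    · rintro (⟨h1, x, hx, t, h3, h4, h5, h6⟩ | hg)
      · have hf : Fin' E x := ⟨t + 1, fun t' ht' => by
          by_contra hc
          exact h6 t' (by omega) ht'⟩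
        have ht := hK0 x hx hf t h4
        refine ⟨by rw [H.bit_lo hs]; exact h1, x, hx, t, H.pow_le_of_lt (by omega), h3, h4,
          fun s' h7 h8 => ?_, fun t' h7 _ => h6 t' h7⟩
        rw [H.bit_lo (by omega)]; exact h5 s' h7 h8
      · have := H.le_of_bit hg.1; omega
  · have hs' : K ≤ s := by omega
    constructor
    · rintro ⟨h1, x, hx, t, h2, h3, h4, h5, h6⟩
      rw [H.bit_hi hs'] at h1
      refine Or.inr ⟨h1, x, hx, t, (H.pow_le_iff (by omega)).1 h2, h3, h4, fun s' h7 h8 => ?_,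
        fun t' h7 h8 => h6 t' h7 ((H.pow_le_iff (by omega)).2 h8)⟩
      rw [← H.bit_hi (by omega)]; exact h5 s' h7 h8
    · rintro (hh' | ⟨h1, x, hx, t, h2, h3, h4, h5, h6⟩)
      · have := H.lt_of_bit hh'.1; omega
      · refine ⟨by rw [H.bit_hi hs']; exact h1, x, hx, t, (H.pow_le_iff (by omega)).2 h2, h3, h4,
          fun s' h7 h8 => ?_, fun t' h7 h8 => h6 t' h7 ((H.pow_le_iff (by omega)).1 h8)⟩
        rw [H.bit_hi (by omega)]; exact h5 s' h7 h8

theorem RP_parity {X : Set ℕ} (hF : Far X)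
    (hM : Mono4 (fun n => {s | P2 E (low n) n s}.ncard % 2) X) {h h' K : ℕ} (hh : h ∈ X)
    (hh' : h' ∈ X) (h0 : 0 < h) (H : Apart h h' K) :
    {s | RP E h s}.ncard % 2 = {s | RP E (h + h') s}.ncard % 2 := by
  obtain ⟨i, -, -, m3, m4⟩ := hM
  obtain ⟨Ka, hKa⟩ := P2_split E h0
  obtain ⟨Kb, hKb⟩ := P2_split E (h := h + h') (by omega)
  obtain ⟨g, hg, K2, hK2, H2⟩ := hF.apart (h + h') (max Ka Kb)
  obtain ⟨Kc, hKc⟩ := hKa g K2 (le_trans (le_max_left _ _) hK2) H2.of_add_left
  obtain ⟨Kd, hKd⟩ := hKb g K2 (le_trans (le_max_right _ _) hK2) H2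
  obtain ⟨g', hg', K3, hK3, H3⟩ := hF.apart g (max Kc Kd)
  have e1 := hKc g' K3 (le_trans (le_max_left _ _) hK3) H3
  have e2 := hKd g' K3 (le_trans (le_max_right _ _) hK3) H3
  have hlow : low (h + h') = low h := funext fun x => propext (H.low_iff h0 x)
  rw [hlow] at e2
  have e3 := m3 h hh g hg g' hg' H2.of_add_left.lt H3.lt
  have e4 := m4 h hh h' hh' g hg g' hg' H.lt H2.of_add_right.lt H3.lt
  simp only at e3 e4
  rw [add_assoc h g g'] at e3
  rw [add_assoc (h + h') g g'] at e4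
  omega

open Classical in
/-- splitting off the top digit; `m` is the block below the long gap -/
lemma RP_eq {n m g α : ℕ} (hn : 0 < n) (hL : Long E m g) (hα1 : m.testBit α = true)
    (hα2 : m < 2 ^ (α + 1)) (hnα : n < 2 ^ (α + 1)) (hg : low g (α + 1)) :
    {s | RP E n s}.ncard = {s | RD E n g s}.ncard + if rho E n then 1 else 0 := by
  obtain ⟨a, ha1, ha2⟩ := exists_top hn
  have key : ∀ s, RP E n s ↔ RD E n g s ∨ (s = a ∧ rho E n) := by
    intro s
    constructor
    · rintro ⟨h1, x, hx, t, h3, h4, h5, h6⟩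
      by_cases hsa : s = a
      · refine Or.inr ⟨hsa, x, hx, t, lt_of_lt_of_le ha2 ?_, h4, h6⟩
        exact Nat.pow_le_pow_right (by norm_num) (by omega)
      · have := le_top ha2 h1
        exact Or.inl ⟨h1, ⟨a, by omega, ha1⟩, x, hx, t, h3, h4, h5, fun t' h7 _ => h6 t' h7⟩
    · rintro (⟨h1, ⟨s', h2, h2'⟩, x, hx, t, h3, h4, h5, h6⟩ | ⟨rfl, x, hx, t, h3, h4, h5⟩)
      · refine ⟨h1, x, hx, t, h3, h4, h5, fun t' h7 h8 => ?_⟩
        have hts : t < s' := by
          by_contra hc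
          rw [h5 s' (by omega) h2] at h2'
          exact absurd h2' (by simp)
        have hs'α := le_top hnα h2'
        have hxs := low_le_of_bit hx h1
        by_cases hα : α ≤ t'
        · obtain ⟨t'', h9, h10, h11⟩ := hL α hα1 hα2 x (by omega) t' hα h8
          exact h6 t'' (by omega) h11 h10
        · exact h6 t' h7 (low_mono hg (by omega)) h8
      · have := le_top h3 ha1
        refine ⟨ha1, x, hx, t, this, h4, fun s' _ h7 => ?_, h5⟩
        by_contra hc
        have := le_top ha2 (s := s') (by simpa using hc)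
        omega
  have hfin : {s | RD E n g s}.Finite := (finite_bits n).subset fun s hs => hs.1
  by_cases hr : rho E n
  · have e : {s | RP E n s} = insert a {s | RD E n g s} := by
      ext s; simp [key, hr, or_comm]
    have hna : a ∉ {s | RD E n g s} := by
      rintro ⟨-, ⟨s', h2, h2'⟩, -⟩
      have := le_top ha2 h2'; omega
    rw [e, Set.ncard_insert_of_notMem hna hfin, if_pos hr]
  · have e : {s | RP E n s} = {s | RD E n g s} := by
      ext s; simp [key, hr]
    rw [e, if_neg hr, add_zero]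

lemma rho_anti {h h' K : ℕ} (h0 : 0 < h) (H : Apart h h' K) (hr : rho E (h + h')) : rho E h := by
  obtain ⟨x, hx, t, h1, h2, h3⟩ := hr
  exact ⟨x, (H.low_iff h0 x).1 hx, t, by omega, h2, h3⟩

lemma exists_last {x : ℕ} (hf : Fin' E x) {t : ℕ} (ht : E x t) :
    ∃ t1, t ≤ t1 ∧ E x t1 ∧ ∀ t', t1 < t' → ¬ E x t' := by
  classical
  obtain ⟨B, hB⟩ := hf
  refine ⟨Nat.findGreatest (E x) B, Nat.le_findGreatest (hB t ht).le ht,
    Nat.findGreatest_spec (hB t ht).le ht, fun t' h1 h2 => ?_⟩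
  have := Nat.le_findGreatest (hB t' h2).le h2
  omega

/-- the search condition -/
def Wit (fl : Bool) (t0 x h h' g K K' : ℕ) : Prop :=
  low h x ∧ 0 < h ∧ Apart h h' K ∧ Apart (h + h') g K' ∧
    ((fl = true ∧ low h t0) ∨
      ({s | RD E h g s}.ncard + {s | RD E (h + h') g s}.ncard) % 2 = 1)

/-- the answer read off from a witness -/
def Ans (x n g : ℕ) : Prop := ∀ t, n < 2 ^ (t + 1) → low g (t + 1) → ¬ E x t

open Classical in
lemma parity_rho {X : Set ℕ} (hF : Far X)
    (hM1 : Mono4 (fun n => {a | P1 E n a}.ncard % 2) X)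
    (hM2 : Mono4 (fun n => {s | P2 E (low n) n s}.ncard % 2) X) {h h' g K K' : ℕ} (hh : h ∈ X)
    (hh' : h' ∈ X) (hg : g ∈ X) (h0 : 0 < h) (H : Apart h h' K) (H' : Apart (h + h') g K') :
    ({s | RD E h g s}.ncard + if rho E h then 1 else 0) % 2 =
      ({s | RD E (h + h') g s}.ncard + if rho E (h + h') then 1 else 0) % 2 := by
  obtain ⟨α, hα1, hα2⟩ := exists_top H.2.2
  have hL := long_of_mono E hF hM1 hh' hg H'.of_add_right
  have hKα := H.le_of_bit hα1
  have hsum : h + h' < 2 ^ (α + 1) := by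
    by_contra hc
    have := (H.pow_le_iff (t := α + 1) (by omega)).1 (by omega)
    omega
  have hlg : low g (α + 1) :=
    low_mono (low_of_dvd H'.2.1) (H'.of_add_right.lt_of_bit hα1)
  rw [← RP_eq E h0 hL hα1 hα2 (by omega) hlg, ← RP_eq E (by omega) hL hα1 hα2 hsum hlg]
  exact RP_parity E hF hM2 hh hh' h0 H

theorem comb {X : Set ℕ} (hF : Far X)
    (hM1 : Mono4 (fun n => {a | P1 E n a}.ncard % 2) X)
    (hM2 : Mono4 (fun n => {s | P2 E (low n) n s}.ncard % 2) X) :
    ∃ fl t0, (∀ x, ∃ h ∈ X, ∃ h' ∈ X, ∃ g ∈ X, ∃ K K', Wit E fl t0 x h h' g K K') ∧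
      ∀ x, ∀ h ∈ X, ∀ h' ∈ X, ∀ g ∈ X, ∀ K K', Wit E fl t0 x h h' g K K' →
        (Ans E x (h + h') g ↔ Fin' E x) := by
  classical
  have ans : ∀ x, ∀ h ∈ X, ∀ h' ∈ X, ∀ g ∈ X, ∀ K K', low h x → 0 < h → Apart h h' K →
      Apart (h + h') g K' → ¬ rho E (h + h') → (Ans E x (h + h') g ↔ Fin' E x) := by
    intro x h hh h' hh' g hg K K' hx h0 H H' hr
    constructor
    · intro hA
      by_contra hf
      obtain ⟨α, hα1, hα2⟩ := exists_top H.2.2
      have hL := long_of_mono E hF hM1 hh' hg H'.of_add_right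
      have hKα := H.le_of_bit hα1
      have hsum : h + h' < 2 ^ (α + 1) := by
        by_contra hc
        have := (H.pow_le_iff (t := α + 1) (by omega)).1 (by omega)
        omega
      unfold Fin' at hf
      push Not at hf
      obtain ⟨t, h1, h2⟩ := hf α
      obtain ⟨a, ha, -⟩ := exists_top h0
      have := low_le_of_bit hx ha
      have := H.lt_of_bit ha
      obtain ⟨t', h3, h4, h5⟩ := hL α hα1 hα2 x (by omega) t h2 h1
      exact hA t' (lt_of_lt_of_le hsum (Nat.pow_le_pow_right (by norm_num) (by omega))) h5 h4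
    · intro hf t h1 _ h3
      obtain ⟨t1, h4, h5, h6⟩ := exists_last E hf h3
      exact hr ⟨x, (H.low_iff h0 x).2 hx, t1,
        lt_of_lt_of_le h1 (Nat.pow_le_pow_right (by norm_num) (by omega)), h5, h6⟩
  have odd : ∀ h ∈ X, ∀ h' ∈ X, ∀ g ∈ X, ∀ K K', 0 < h → Apart h h' K →
      Apart (h + h') g K' →
      ({s | RD E h g s}.ncard + {s | RD E (h + h') g s}.ncard) % 2 = 1 → ¬ rho E (h + h') := by
    intro h hh h' hh' g hg K K' h0 H H' ho hr
    have := parity_rho E hF hM1 hM2 hh hh' hg h0 H H'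
    rw [if_pos hr, if_pos (rho_anti E h0 H hr)] at this
    omega
  by_cases hc : ∃ t0, ∀ h ∈ X, 0 < h → low h t0 → ¬ rho E h
  · obtain ⟨t0, ht0⟩ := hc
    refine ⟨true, t0, fun x => ?_, ?_⟩
    · obtain ⟨h, hh, h0, hd⟩ := hF (max x t0)
      obtain ⟨h', hh', K, -, H⟩ := hF.apart h 0
      obtain ⟨g, hg, K', -, H'⟩ := hF.apart (h + h') 0
      exact ⟨h, hh, h', hh', g, hg, K, K', low_mono (low_of_dvd hd) (le_max_left _ _), h0, H, H',
        Or.inl ⟨rfl, low_mono (low_of_dvd hd) (le_max_right _ _)⟩⟩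
    · rintro x h hh h' hh' g hg K K' ⟨hx, h0, H, H', ⟨-, h1⟩ | h1⟩
      · exact ans x h hh h' hh' g hg K K' hx h0 H H'
          fun hr => ht0 h hh h0 h1 (rho_anti E h0 H hr)
      · exact ans x h hh h' hh' g hg K K' hx h0 H H' (odd h hh h' hh' g hg K K' h0 H H' h1)
  · push Not at hc
    refine ⟨false, 0, fun x => ?_, ?_⟩
    · obtain ⟨h, hh, h0, hx, hr⟩ := hc x
      obtain ⟨K0, hK0⟩ := fin_bound E h0
      obtain ⟨h', hh', K, hK, H⟩ := hF.apart h K0
      obtain ⟨g, hg, K', -, H'⟩ := hF.apart (h + h') 0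
      have hnr : ¬ rho E (h + h') := by
        rintro ⟨y, hy, t, h1, h2, h3⟩
        have hf : Fin' E y := ⟨t + 1, fun t' ht' => by
          by_contra hc
          exact h3 t' (by omega) ht'⟩
        have h4 := hK0 y ((H.low_iff h0 y).1 hy) hf t h2
        have := H.pow_le_of_lt (t := t + 1) (by omega)
        omega
      have := parity_rho E hF hM1 hM2 hh hh' hg h0 H H'
      rw [if_pos hr, if_neg hnr] at this
      exact ⟨h, hh, h', hh', g, hg, K, K', hx, h0, H, H', Or.inr (by omega)⟩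
    · rintro x h hh h' hh' g hg K K' ⟨hx, h0, H, H', ⟨h1, -⟩ | h1⟩
      · exact absurd h1 (by simp)
      · exact ans x h hh h' hh' g hg K K' hx h0 H H' (odd h hh h' hh' g hg K K' h0 H H' h1)

end HTJump
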