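import Mathlib

/-! A search with three oracle questions is a Turing reduction. -/

namespace HTJump

open Primrec

lemma ti_comp {O : Set (ℕ →. ℕ)} {f g : ℕ → ℕ} (hf : Nat.RecursiveIn O (f : ℕ →. ℕ))
    (hg : Nat.RecursiveIn O (g : ℕ →. ℕ)) :
    Nat.RecursiveIn O ((fun n => f (g n) : ℕ → ℕ) : ℕ →. ℕ) :=
  (Nat.RecursiveIn.comp hf hg).of_eq fun n => by simp

lemma ti_pair {O : Set (ℕ →. ℕ)} {f g : ℕ → ℕ} (hf : Nat.RecursiveIn O (f : ℕ →. ℕ))
    (hg : Nat.RecursiveIn O (g : ℕ →. ℕ)) :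
    Nat.RecursiveIn O ((fun n => Nat.pair (f n) (g n) : ℕ → ℕ) : ℕ →. ℕ) :=
  (Nat.RecursiveIn.pair hf hg).of_eq fun n => by simp [Seq.seq]

lemma ti_prim {O : Set (ℕ →. ℕ)} {f : ℕ → ℕ} (hf : Primrec f) :
    Nat.RecursiveIn O (f : ℕ →. ℕ) := (Primrec.nat_iff.1 hf).recursiveIn

theorem search_red (X A : Set ℕ) {Φ ans : ℕ → Prop} (hΦ : PrimrecPred Φ) (hans : PrimrecPred ans)
    {p q r : ℕ → ℕ} (hp : Primrec p) (hq : Primrec q) (hr : Primrec r)
    (hex : ∀ x, ∃ w, Φ (Nat.pair x w) ∧ p (Nat.pair x w) ∈ X ∧ q (Nat.pair x w) ∈ X ∧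
      r (Nat.pair x w) ∈ X)
    (hok : ∀ x w, Φ (Nat.pair x w) → p (Nat.pair x w) ∈ X → q (Nat.pair x w) ∈ X →
      r (Nat.pair x w) ∈ X → (ans (Nat.pair x w) ↔ x ∈ A)) :
    TuringReducible (fun x => Part.some (A.indicator (1 : ℕ → ℕ) x))
      (fun n => Part.some (X.indicator (1 : ℕ → ℕ) n)) := by
  classical
  unfold TuringReducible
  rw [RecursiveIn.iff_nat]
  set O : Set (ℕ →. ℕ) := {fun n => Part.some (X.indicator (1 : ℕ → ℕ) n)} with hO
  have hχ : Nat.RecursiveIn O ((X.indicator (1 : ℕ → ℕ) : ℕ → ℕ) : ℕ →. ℕ) :=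
    Nat.RecursiveIn.oracle _ rfl
  have u := ti_pair (ti_prim (O := O) Primrec.id) (ti_pair (ti_comp hχ (ti_prim hp))
    (ti_pair (ti_comp hχ (ti_prim hq)) (ti_comp hχ (ti_prim hr))))
  have l : Primrec fun m : ℕ => m.unpair.1 := fst.comp unpair
  have r' : Primrec fun m : ℕ => m.unpair.2 := snd.comp unpair
  have hG : Primrec fun m : ℕ => if Φ m.unpair.1 ∧ m.unpair.2.unpair.1 = 1 ∧
      m.unpair.2.unpair.2.unpair.1 = 1 ∧ m.unpair.2.unpair.2.unpair.2 = 1 then 0 else 1 :=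
    Primrec.ite ((hΦ.comp l).and ((Primrec.eq.comp (l.comp r') (const 1)).and
      ((Primrec.eq.comp (l.comp (r'.comp r')) (const 1)).and
        (Primrec.eq.comp (r'.comp (r'.comp r')) (const 1))))) (const 0) (const 1)
  have hτ : Nat.RecursiveIn O ((fun n => if Φ n ∧ p n ∈ X ∧ q n ∈ X ∧ r n ∈ X then 0 else 1 :
      ℕ → ℕ) : ℕ →. ℕ) := by
    refine (ti_comp (ti_prim hG) u).of_eq fun n => ?_
    simp [Set.indicator_apply]
  have hA : Primrec fun m : ℕ => if ans m then 1 else 0 := Primrec.ite hans (const 1) (const 0)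
  have fin := Nat.RecursiveIn.comp (ti_prim (O := O) hA)
    (Nat.RecursiveIn.pair (ti_prim (O := O) Primrec.id) (Nat.RecursiveIn.rfind hτ))
  refine fin.of_eq fun x => ?_
  have hx := hex x
  have hspec := Nat.find_spec hx
  have hmem : Nat.find hx ∈ Nat.rfind fun n => (fun m => decide (m = 0)) <$>
      ((fun n => if Φ n ∧ p n ∈ X ∧ q n ∈ X ∧ r n ∈ X then 0 else 1 : ℕ → ℕ) : ℕ →. ℕ)
        (Nat.pair x n) := by
    rw [Nat.mem_rfind]
    refine ⟨by simp [hspec], fun {m} hm => ?_⟩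
    have := Nat.find_min hx hm
    simp [this]
  rw [Part.eq_some_iff.2 hmem]
  have := hok x _ hspec.1 hspec.2.1 hspec.2.2.1 hspec.2.2.2
  simp [Seq.seq, this, Set.indicator_apply]

end HTJump
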