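import Pool.Agent.HTJump.Kappa
import Pool.Agent.HTJump.FarL

/-! Primitive recursiveness of the predicates. -/

namespace HTJump

open Primrec

variable {α : Type} [Primcodable α]

lemma bex {P : α → ℕ → Prop} {b : α → ℕ} (hP : PrimrecPred fun p : α × ℕ => P p.1 p.2)
    (hb : Primrec b) : PrimrecPred fun a => ∃ x < b a, P a x := by
  have h1 : PrimrecRel fun (x : ℕ) (a : α) => P a x := PrimrecRel.swap (r := P) hP
  exact (h1.exists_mem_list.comp (list_range.comp hb) Primrec.id).of_eq (by simp)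

lemma ball {P : α → ℕ → Prop} {b : α → ℕ} (hP : PrimrecPred fun p : α × ℕ => P p.1 p.2)
    (hb : Primrec b) : PrimrecPred fun a => ∀ x < b a, P a x := by
  have h1 : PrimrecRel fun (x : ℕ) (a : α) => P a x := PrimrecRel.swap (r := P) hP
  exact (h1.forall_mem_list.comp (list_range.comp hb) Primrec.id).of_eq (by simp)

lemma impP {p q : α → Prop} (hp : PrimrecPred p) (hq : PrimrecPred q) :
    PrimrecPred fun a => p a → q a :=
  (hp.not.or hq).of_eq fun a => by tauto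

lemma cntP {P : α → ℕ → Prop} {b : α → ℕ} (hP : PrimrecPred fun p : α × ℕ => P p.1 p.2)
    (hb : Primrec b) (hlt : ∀ a s, P a s → s < b a) : Primrec fun a => {s | P a s}.ncard := by
  classical
  have h1 : PrimrecRel fun (x : ℕ) (a : α) => P a x := PrimrecRel.swap (r := P) hP
  refine (list_length.comp (h1.listFilter.comp (list_range.comp hb) Primrec.id)).of_eq fun a => ?_
  have e : {s | P a s} = ↑((List.range (b a)).filter fun x => decide (P a x)).toFinset := by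
    ext s
    simp only [Set.mem_ofPred_eq, Finset.mem_coe, List.mem_toFinset, List.mem_filter,
      List.mem_range, decide_eq_true_eq]
    exact ⟨fun h => ⟨hlt a s h, h⟩, fun h => h.2⟩
  rw [e, Set.ncard_coe_finset, List.toFinset_card_of_nodup (List.nodup_range.filter _)]
  rfl

lemma pow2P {f : α → ℕ} (hf : Primrec f) : Primrec fun a => 2 ^ f a :=
  (Primrec₂.unpaired'.1 Nat.Primrec.pow).comp (const 2) hf

lemma succP {f : α → ℕ} (hf : Primrec f) : Primrec fun a => f a + 1 := succ.comp hf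

lemma bitP {f g : α → ℕ} (hf : Primrec f) (hg : Primrec g) :
    PrimrecPred fun a => (f a).testBit (g a) = true :=
  (Primrec.eq.comp (nat_mod.comp (nat_div.comp hf (pow2P hg)) (const 2)) (const 1)).of_eq
    fun a => by simp [Nat.testBit_eq_decide_div_mod_eq]

lemma nbitP {f g : α → ℕ} (hf : Primrec f) (hg : Primrec g) :
    PrimrecPred fun a => (f a).testBit (g a) = false :=
  (bitP hf hg).not.of_eq fun a => by simp

lemma lowP {f g : α → ℕ} (hf : Primrec f) (hg : Primrec g) :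
    PrimrecPred fun a => low (f a) (g a) :=
  ball (P := fun a t => (f a).testBit t = false) (nbitP (hf.comp fst) snd) hg

lemma apartP {f g k : α → ℕ} (hf : Primrec f) (hg : Primrec g) (hk : Primrec k) :
    PrimrecPred fun a => Apart (f a) (g a) (k a) :=
  ((nat_lt.comp hf (pow2P hk)).and ((Primrec.eq.comp (nat_mod.comp hg (pow2P hk)) (const 0)).and
    (nat_lt.comp (const 0) hg))).of_eq fun a => by
      simp [Apart, Nat.dvd_iff_mod_eq_zero]

lemma P3P : PrimrecPred P3 := by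
  have : PrimrecPred fun n : ℕ => ∃ j < n, j % 2 = 1 ∧ n.testBit j = true ∧ low n j :=
    bex (α := ℕ) (b := fun n => n) (P := fun n j => j % 2 = 1 ∧ n.testBit j = true ∧ low n j)
      ((Primrec.eq.comp (nat_mod.comp snd (const 2)) (const 1)).and
        ((bitP fst snd).and (lowP fst snd))) Primrec.id
  refine this.of_eq fun n => ⟨fun ⟨j, _, h⟩ => ⟨j, h⟩, fun ⟨j, h⟩ => ⟨j, lt_of_bit h.2.1, h⟩⟩

variable {E : ℕ → ℕ → Prop}

lemma firstP (hE : PrimrecRel E) {x a t : α → ℕ} (hx : Primrec x) (ha : Primrec a)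
    (ht : Primrec t) : PrimrecPred fun z => ∀ t' < t z, a z ≤ t' → ¬ E (x z) t' :=
  ball (P := fun z t' => a z ≤ t' → ¬ E (x z) t')
    (impP (nat_le.comp (ha.comp fst) snd) (hE.comp (hx.comp fst) snd).not) ht

lemma nextP {n a t : α → ℕ} (hn : Primrec n) (ha : Primrec a) (ht : Primrec t) :
    PrimrecPred fun z => ∃ b ≤ t z, a z < b ∧ (n z).testBit b = true :=
  (bex (P := fun z b => a z < b ∧ (n z).testBit b = true)
    ((nat_lt.comp (ha.comp fst) snd).and (bitP (hn.comp fst) snd)) (succP ht)).of_eq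
      fun z => by simp [Nat.lt_succ_iff]

lemma gapP {n a t : α → ℕ} (hn : Primrec n) (ha : Primrec a) (ht : Primrec t) :
    PrimrecPred fun z => ∀ b ≤ t z, a z < b → (n z).testBit b = false :=
  (ball (P := fun z b => a z < b → (n z).testBit b = false)
    (impP (nat_lt.comp (ha.comp fst) snd) (nbitP (hn.comp fst) snd)) (succP ht)).of_eq
      fun z => by simp [Nat.lt_succ_iff]

lemma lt_of_pow {t n : ℕ} (h : 2 ^ t ≤ n) : t < n := lt_of_lt_of_le Nat.lt_two_pow_self h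

lemma P1in (hE : PrimrecRel E) {n a x : α → ℕ} (hn : Primrec n) (ha : Primrec a)
    (hx : Primrec x) : PrimrecPred fun z => ∃ t, 2 ^ t ≤ n z ∧ a z ≤ t ∧ E (x z) t ∧
      (∀ t' < t, a z ≤ t' → ¬ E (x z) t') ∧ ∃ b ≤ t, a z < b ∧ (n z).testBit b = true :=
  (bex (P := fun z t => 2 ^ t ≤ n z ∧ a z ≤ t ∧ E (x z) t ∧
      (∀ t' < t, a z ≤ t' → ¬ E (x z) t') ∧ ∃ b ≤ t, a z < b ∧ (n z).testBit b = true)
    ((nat_le.comp (pow2P snd) (hn.comp fst)).and ((nat_le.comp (ha.comp fst) snd).and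
      ((hE.comp (hx.comp fst) snd).and ((firstP hE (hx.comp fst) (ha.comp fst) snd).and
        (nextP (hn.comp fst) (ha.comp fst) snd))))) hn).of_eq
    fun z => ⟨fun ⟨t, _, h⟩ => ⟨t, h⟩, fun ⟨t, h⟩ => ⟨t, lt_of_pow h.1, h⟩⟩

lemma P1P (hE : PrimrecRel E) : PrimrecPred fun p : ℕ × ℕ => P1 E p.1 p.2 :=
  ((bitP fst snd).and (bex (P := fun (z : ℕ × ℕ) x => ∃ t, 2 ^ t ≤ z.1 ∧ z.2 ≤ t ∧ E x t ∧
      (∀ t' < t, z.2 ≤ t' → ¬ E x t') ∧ ∃ b ≤ t, z.2 < b ∧ z.1.testBit b = true)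
    (P1in hE (fst.comp fst) (snd.comp fst) snd) (succP snd))).of_eq
      fun z => by simp [P1, Nat.lt_succ_iff]

lemma lastP (hE : PrimrecRel E) {n x t : α → ℕ} (hn : Primrec n) (hx : Primrec x)
    (ht : Primrec t) : PrimrecPred fun z => ∀ t', t z < t' → 2 ^ t' ≤ n z → ¬ E (x z) t' :=
  (ball (P := fun z t' => t z < t' → 2 ^ t' ≤ n z → ¬ E (x z) t')
    (impP (nat_lt.comp (ht.comp fst) snd) (impP (nat_le.comp (pow2P snd) (hn.comp fst))
      (hE.comp (hx.comp fst) snd).not)) hn).of_eq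
    fun z => ⟨fun h t' h1 h2 => h t' (lt_of_pow h2) h1 h2, fun h t' _ => h t'⟩

lemma P2in (hE : PrimrecRel E) {n s x : α → ℕ} (hn : Primrec n) (hs : Primrec s)
    (hx : Primrec x) : PrimrecPred fun z => ∃ t, 2 ^ t ≤ n z ∧ s z ≤ t ∧ E (x z) t ∧
      (∀ s' ≤ t, s z < s' → (n z).testBit s' = false) ∧
        ∀ t', t < t' → 2 ^ t' ≤ n z → ¬ E (x z) t' :=
  (bex (P := fun z t => 2 ^ t ≤ n z ∧ s z ≤ t ∧ E (x z) t ∧
      (∀ s' ≤ t, s z < s' → (n z).testBit s' = false) ∧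
        ∀ t', t < t' → 2 ^ t' ≤ n z → ¬ E (x z) t')
    ((nat_le.comp (pow2P snd) (hn.comp fst)).and ((nat_le.comp (hs.comp fst) snd).and
      ((hE.comp (hx.comp fst) snd).and ((gapP (hn.comp fst) (hs.comp fst) snd).and
        (lastP hE (hn.comp fst) (hx.comp fst) snd))))) hn).of_eq
    fun z => ⟨fun ⟨t, _, h⟩ => ⟨t, h⟩, fun ⟨t, h⟩ => ⟨t, lt_of_pow h.1, h⟩⟩

lemma P2P (hE : PrimrecRel E) : PrimrecPred fun p : ℕ × ℕ => P2 E (low p.1) p.1 p.2 :=
  ((bitP fst snd).and (bex (P := fun (z : ℕ × ℕ) x => low z.1 x ∧ ∃ t, 2 ^ t ≤ z.1 ∧ z.2 ≤ t ∧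
      E x t ∧ (∀ s' ≤ t, z.2 < s' → z.1.testBit s' = false) ∧
        ∀ t', t < t' → 2 ^ t' ≤ z.1 → ¬ E x t')
    ((lowP (fst.comp fst) snd).and (P2in hE (fst.comp fst) (snd.comp fst) snd))
      (succP snd))).of_eq
    fun z => ⟨fun ⟨h1, x, _, h⟩ => ⟨h1, x, h⟩,
      fun ⟨h1, x, h⟩ => ⟨h1, x, Nat.lt_succ_of_le (low_le_of_bit h.1 h1), h⟩⟩

lemma lt_of_low {g t : ℕ} (hg : 0 < g) (h : low g (t + 1)) : t < g := by
  obtain ⟨a, ha, -⟩ := exists_top hg
  have := low_le_of_bit h ha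
  have := lt_of_bit ha
  omega

lemma tailP (hE : PrimrecRel E) {g x t : α → ℕ} (hg : Primrec g) (hx : Primrec x)
    (ht : Primrec t) :
    PrimrecPred fun z => ∀ t' < g z, t z < t' → low (g z) (t' + 1) → ¬ E (x z) t' :=
  ball (P := fun z t' => t z < t' → low (g z) (t' + 1) → ¬ E (x z) t')
    (impP (nat_lt.comp (ht.comp fst) snd) (impP (lowP (hg.comp fst) (succP snd))
      (hE.comp (hx.comp fst) snd).not)) hg

lemma RDin (hE : PrimrecRel E) {n g s x : α → ℕ} (hn : Primrec n) (hg : Primrec g)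
    (hs : Primrec s) (hx : Primrec x) : PrimrecPred fun z => ∃ t < n z, s z ≤ t ∧ E (x z) t ∧
      (∀ s' ≤ t, s z < s' → (n z).testBit s' = false) ∧
        ∀ t' < g z, t < t' → low (g z) (t' + 1) → ¬ E (x z) t' :=
  bex (P := fun z t => s z ≤ t ∧ E (x z) t ∧
      (∀ s' ≤ t, s z < s' → (n z).testBit s' = false) ∧
        ∀ t' < g z, t < t' → low (g z) (t' + 1) → ¬ E (x z) t')
    ((nat_le.comp (hs.comp fst) snd).and
      ((hE.comp (hx.comp fst) snd).and ((gapP (hn.comp fst) (hs.comp fst) snd).and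
        (tailP hE (hg.comp fst) (hx.comp fst) snd)))) hn

lemma RDP (hE : PrimrecRel E) {n g s : α → ℕ} (hn : Primrec n) (hg : Primrec g)
    (hs : Primrec s) : PrimrecPred fun z => 0 < g z ∧ RD E (n z) (g z) (s z) := by
  refine ((nat_lt.comp (const 0) hg).and ((bitP hn hs).and ((nextP hn hs hn).and
    (bex (P := fun z x => low (n z) x ∧ ∃ t < n z, s z ≤ t ∧ E x t ∧
      (∀ s' ≤ t, s z < s' → (n z).testBit s' = false) ∧
        ∀ t' < g z, t < t' → low (g z) (t' + 1) → ¬ E x t')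
    ((lowP (hn.comp fst) snd).and (RDin hE (hn.comp fst) (hg.comp fst) (hs.comp fst) snd))
      (succP hs))))).of_eq fun z => ?_
  constructor
  · rintro ⟨h0, h1, ⟨b, -, h2⟩, x, -, h3, t, -, h4, h5, h6, h7⟩
    exact ⟨h0, h1, ⟨b, h2⟩, x, h3, t, h4, h5, h6, fun t' h8 h9 => h7 t' (lt_of_low h0 h9) h8 h9⟩
  · rintro ⟨h0, h1, ⟨b, h2, h2'⟩, x, h3, t, h4, h5, h6, h7⟩
    have hb := lt_of_bit h2'
    have htb : t < b := by
      by_contra hc
      rw [h6 b (by omega) h2] at h2'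
      exact absurd h2' (by simp)
    exact ⟨h0, h1, ⟨b, hb.le, h2, h2'⟩, x, Nat.lt_succ_of_le (low_le_of_bit h3 h1), h3, t,
      by omega, h4, h5, h6, fun t' _ => h7 t'⟩

lemma RDcnt (hE : PrimrecRel E) {n g : α → ℕ} (hn : Primrec n) (hg : Primrec g) :
    Primrec fun z => {s | 0 < g z ∧ RD E (n z) (g z) s}.ncard :=
  cntP (P := fun z s => 0 < g z ∧ RD E (n z) (g z) s) (RDP hE (hn.comp fst) (hg.comp fst) snd) hn
    fun _ _ h => lt_of_bit h.2.1

lemma WitP (hE : PrimrecRel E) (fl : Bool) (t0 : ℕ) {x h h' g k k' : α → ℕ} (hx : Primrec x)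
    (hh : Primrec h) (hh' : Primrec h') (hg : Primrec g) (hk : Primrec k) (hk' : Primrec k') :
    PrimrecPred fun z => Wit E fl t0 (x z) (h z) (h' z) (g z) (k z) (k' z) := by
  have hs : Primrec fun z => h z + h' z := nat_add.comp hh hh'
  refine ((lowP hh hx).and ((nat_lt.comp (const 0) hh).and ((apartP hh hh' hk).and
    ((apartP hs hg hk').and (((Primrec.eq.comp (const fl) (const true)).and
      (lowP hh (const t0))).or (Primrec.eq.comp (nat_mod.comp (nat_add.comp (RDcnt hE hh hg)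
        (RDcnt hE hs hg)) (const 2)) (const 1))))))).of_eq fun z => ?_
  unfold Wit
  refine and_congr_right fun _ => and_congr_right fun _ => and_congr_right fun _ =>
    and_congr_right fun H => ?_
  simp [H.2.2]

lemma AnsP (hE : PrimrecRel E) {x n g : α → ℕ} (hx : Primrec x) (hn : Primrec n)
    (hg : Primrec g) : PrimrecPred fun z => 0 < g z ∧ Ans E (x z) (n z) (g z) := by
  refine ((nat_lt.comp (const 0) hg).and
    (ball (P := fun z t => n z < 2 ^ (t + 1) → low (g z) (t + 1) → ¬ E (x z) t)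
    (impP (nat_lt.comp (hn.comp fst) (pow2P (succP snd))) (impP (lowP (hg.comp fst) (succP snd))
      (hE.comp (hx.comp fst) snd).not)) hg)).of_eq fun z => ?_
  refine and_congr_right fun h0 => ⟨fun h t h1 h2 => h t (lt_of_low h0 h2) h1 h2,
    fun h t _ => h t⟩

end HTJump
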