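import Pool.Agent.HTJump.Prim

/-! A universal family of event sets. -/

namespace HTJump

open Primrec Nat.Partrec Nat.Partrec.Code Denumerable

/-- program `x` has halted on all inputs `≤ w` within `s` steps -/
def TT (x w s : ℕ) : Prop := ∀ w' < w + 1, (evaln s (ofNat Code x) w').isSome = true

/-- the initial segment on which program `x` has halted grows at stage `s` -/
def EU (x s : ℕ) : Prop := ∃ w < s + 1, TT x w (s + 1) ∧ ¬ TT x w s

lemma TTP {α : Type} [Primcodable α] {x w s : α → ℕ} (hx : Primrec x) (hw : Primrec w)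
    (hs : Primrec s) : PrimrecPred fun z => TT (x z) (w z) (s z) :=
  ball (P := fun z w' => (evaln (s z) (ofNat Code (x z)) w').isSome = true)
    (Primrec.eq.comp (option_isSome.comp (primrec_evaln.comp
      (((hs.comp fst).pair ((Primrec.ofNat Code).comp (hx.comp fst))).pair snd))) (const true))
    (succP hw)

lemma EUP : PrimrecRel EU :=
  bex (α := ℕ × ℕ) (P := fun z w => TT z.1 w (z.2 + 1) ∧ ¬ TT z.1 w z.2)
    ((TTP (fst.comp fst) snd (succP (snd.comp fst))).and
      (TTP (fst.comp fst) snd (snd.comp fst)).not) (succP snd)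

lemma TT_mono {x w s s' : ℕ} (h : s ≤ s') (H : TT x w s) : TT x w s' := by
  intro w' hw'
  obtain ⟨y, hy⟩ := Option.isSome_iff_exists.1 (H w' hw')
  exact Option.isSome_iff_exists.2 ⟨y, evaln_mono h hy⟩

lemma TT_lt {x w s : ℕ} (H : TT x w s) : w < s := by
  obtain ⟨y, hy⟩ := Option.isSome_iff_exists.1 (H w (by omega))
  exact evaln_bound hy

lemma fin_EU_iff (x : ℕ) : Fin' EU x ↔ ∃ w, ¬ (eval (ofNat Code x) w).Dom := by
  classical
  constructor
  · rintro ⟨B, hB⟩
    by_contra hc
    push Not at hc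
    have h1 : ∃ s, TT x B s := by
      have := exists_bound (S := {w | w < B + 1}) (Set.finite_lt_nat _)
        (P := fun w s => (evaln s (ofNat Code x) w).isSome = true)
        (fun w s s' hs h => by
          obtain ⟨y, hy⟩ := Option.isSome_iff_exists.1 h
          exact Option.isSome_iff_exists.2 ⟨y, evaln_mono hs hy⟩)
        (fun w _ => by
          obtain ⟨k, hk⟩ := evaln_complete.1 (Part.get_mem (hc w))
          exact ⟨k, Option.isSome_iff_exists.2 ⟨_, hk⟩⟩)
      exact this
    have h2 := Nat.find_spec h1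
    have h3 := TT_lt h2
    obtain ⟨s, hs⟩ : ∃ s, Nat.find h1 = s + 1 := ⟨Nat.find h1 - 1, by omega⟩
    have h4 : ¬ TT x B s := Nat.find_min h1 (by omega)
    rw [hs] at h2 h3
    have := hB s ⟨B, h3, h2, h4⟩
    omega
  · rintro ⟨w0, hw0⟩
    obtain ⟨B, hB⟩ := exists_bound (S := {w | w < w0}) (Set.finite_lt_nat _)
      (P := fun w B => ∀ s, TT x w (s + 1) → ¬ TT x w s → s < B)
      (fun w B B' hB h s h1 h2 => lt_of_lt_of_le (h s h1 h2) hB) (by
        intro w _
        by_cases h : ∃ s, TT x w s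
        · obtain ⟨s0, hs0⟩ := h
          refine ⟨s0, fun s _ h2 => ?_⟩
          by_contra hc
          exact h2 (TT_mono (by omega) hs0)
        · exact ⟨0, fun s h1 _ => absurd ⟨_, h1⟩ h⟩)
    refine ⟨B, fun s ⟨w, _, h1, h2⟩ => hB w ?_ s h1 h2⟩
    by_contra hc
    obtain ⟨y, hy⟩ := Option.isSome_iff_exists.1 (h1 w0 (by simp at hc; omega))
    exact hw0 (Part.dom_iff_mem.2 ⟨y, evaln_sound hy⟩)

theorem sigma2_red {R : ℕ × ℕ × ℕ → Prop} (hR : ComputablePred R) :
    ∃ f : ℕ → ℕ, Primrec f ∧ ∀ x, (∃ w, ∀ t, R (x, w, t)) ↔ Fin' EU (f x) := by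
  classical
  have h1 : Computable fun p : ℕ × ℕ => decide (¬ R (p.1.unpair.1, p.1.unpair.2, p.2)) := by
    have h2 : Computable fun p : ℕ × ℕ => ((p.1.unpair.1, p.1.unpair.2, p.2) : ℕ × ℕ × ℕ) :=
      ((fst.comp (unpair.comp fst)).pair ((snd.comp (unpair.comp fst)).pair snd)).to_comp
    exact (hR.not.decide).comp h2
  have h3 : Partrec fun n : ℕ => Nat.rfind fun t =>
      (Part.some (decide (¬ R (n.unpair.1, n.unpair.2, t))) : Part Bool) :=
    Partrec.rfind (p := fun (n : ℕ) t => Part.some (decide (¬ R (n.unpair.1, n.unpair.2, t))))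
      h1.partrec
  obtain ⟨c, hc⟩ := exists_code.1 (Partrec.nat_iff.1 h3)
  refine ⟨fun x => Encodable.encode (curry c x),
    Primrec.encode.comp (primrec₂_curry.comp (const c) Primrec.id), fun x => ?_⟩
  rw [fin_EU_iff]
  refine exists_congr fun w => ?_
  simp only [ofNat_encode, eval_curry, hc, Nat.unpair_pair, Nat.rfind_dom]
  simp

end HTJump
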